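import Pool.Agent.Q194.MGHD.Cauchy

/-!
# Every smooth datum of the model wave equation has exactly one MGHD

Full answer (no) to Q1 of MP_0eca13_an: no smooth initial datum admits two distinct maximal globally
hyperbolic developments; in fact every smooth datum has exactly one, and it contains every GHD.

Proof. The equation says `Ψ_t + (2 + Ψ) Ψ_x = 0`, and `g(v, v)` is a positive multiple of
`(v_x + 2 v_t) (v_x - (2 + Ψ) v_t)`. In a GHD the ingoing null line `x + 2 t = const` through a point `p`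
is inextendible, so the segment from `p` to `t = 0` lies in the domain; along the outgoing null line
`Ψ` is constant, so `Ψ(p) = ψ₀(x - (2 + Ψ(p)) t)`, and smoothness gives `1 + t ψ₀' ≠ 0` there. By
Rolle's theorem the set where the `Ψ` of two GHDs agree is open and closed in every ingoing segment
contained in both domains, and these segments start at `t = 0`. Hence any two GHDs agree on the
intersection of their domains, and the union of all GHDs is a GHD. Existence of a GHD is proved in the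
characteristic coordinates `y, z` with `x = y + (2 + ψ₀(y)) t`, `z = x + 2 t`.
-/

set_option autoImplicit false

namespace Pool.Agent.Results.MP_0eca13_an.UniqueMGHD

open Set Pool.Agent.Q194.MGHD

/-- For all smooth initial data `φ₀, φ₁` on `ℝ` with `Ψ|_{t=0} = φ₁ - 2 φ₀' ≠ -4` there is an MGHD
(which moreover contains and extends every GHD), and any two MGHDs `(Ω₁, Φ₁)`, `(Ω₂, Φ₂)` coincide. -/
theorem result {φ₀ φ₁ : ℝ → ℝ} (hd : IsData φ₀ φ₁) :
    (∃ (Ω : Set (ℝ × ℝ)) (Φ : ℝ × ℝ → ℝ), IsMGHD φ₀ φ₁ Ω Φ ∧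
      ∀ (Ω' : Set (ℝ × ℝ)) (Φ' : ℝ × ℝ → ℝ), IsGHD φ₀ φ₁ Ω' Φ' → Ω' ⊆ Ω ∧ EqOn Φ' Φ Ω') ∧
    ∀ (Ω₁ Ω₂ : Set (ℝ × ℝ)) (Φ₁ Φ₂ : ℝ × ℝ → ℝ), IsMGHD φ₀ φ₁ Ω₁ Φ₁ → IsMGHD φ₀ φ₁ Ω₂ Φ₂ →
      Ω₁ = Ω₂ ∧ EqOn Φ₁ Φ₂ Ω₁ :=
  main_thm hd

end Pool.Agent.Results.MP_0eca13_an.UniqueMGHD
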